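import Pool.Agent.H43.RayJ

namespace Pool.Agent.Results.MP_04d7a1_pr.Cex

open MeasureTheory Pool.Agent.H43.Ray
open scoped ENNReal

theorem result :
    ∃ ρ : Measure ℕ, IsProbabilityMeasure ρ ∧ ∫⁻ L, ((L : ℝ≥0∞) + 1) ^ 2 ∂ρ = ⊤ ∧ 0 < lamc ρ :=
  Pool.Agent.H43.RayJ.joint.2

end Pool.Agent.Results.MP_04d7a1_pr.Cex
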